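import Pool.Agent.Work.MP_db9399_lin_helper75.CoreA

/-!
MP_db9399_co, linear theorem, block CORE (helper75): the assembly.
-/

set_option autoImplicit false

namespace MP_db9399_co.Lin.CORE

universe u

open Finset

variable {V : Type u}

lemma FbOf_card_le [DecidableEq V] {C : Type} [DecidableEq C] (U : Finset V) (F0 : V → Finset C) (c : V → C)
    (h : ∀ u ∈ U, (F0 u).card ≤ 2) (w : V) : (FbOf U F0 c w).card ≤ 2 := by
  unfold FbOf
  split_ifs with hw
  · exact h w hw
  · simp

/-- the colour with a label and a part -/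
def mk (k l : ℕ) (h : 4 * l ≤ k) (a : Fin l) (p : Fin 4) : Fin k :=
  ⟨4 * a.val + p.val, by omega⟩

lemma mk_val (k l : ℕ) (h : 4 * l ≤ k) (a : Fin l) (p : Fin 4) :
    (mk k l h a p).val = 4 * a.val + p.val := rfl

lemma mk_lt (k l : ℕ) (h : 4 * l ≤ k) (a : Fin l) (p : Fin 4) :
    (mk k l h a p).val < 4 * l := by
  rw [mk_val]; omega

/-- label of a colour -/
def lab (k l : ℕ) (hl : 0 < l) (c : Fin k) : Fin l :=
  ⟨(c.val / 4) % l, Nat.mod_lt _ hl⟩

lemma lab_mk (k l : ℕ) (hl : 0 < l) (h : 4 * l ≤ k) (a : Fin l) (p : Fin 4) :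
    lab k l hl (mk k l h a p) = a := by
  apply Fin.ext
  simp only [lab, mk]
  have h1 : (4 * a.val + p.val) / 4 = a.val := by omega
  rw [h1, Nat.mod_eq_of_lt a.2]

lemma mk_inj (k l : ℕ) (h : 4 * l ≤ k) (a b : Fin l) (p q : Fin 4)
    (e : mk k l h a p = mk k l h b q) : a = b ∧ p = q := by
  have := congrArg Fin.val e
  rw [mk_val, mk_val] at this
  constructor
  · apply Fin.ext; omega
  · apply Fin.ext; omega

/-- forbidden labels of special vertices -/
def FL (k l : ℕ) (hl : 0 < l) (Fb0 : V → Finset (Fin k)) (u : V) : Finset (Fin l) :=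
  ((Fb0 u).filter (fun c => c.val < 4 * l)).image (lab k l hl)

lemma FL_card (k l : ℕ) (hl : 0 < l) (Fb0 : V → Finset (Fin k)) (u : V) (h : (Fb0 u).card ≤ 2) :
    (FL k l hl Fb0 u).card ≤ 2 :=
  card_image_le.trans ((card_filter_le _ _).trans h)

lemma lab_mem_FL (k l : ℕ) (hl : 0 < l) (Fb0 : V → Finset (Fin k)) (u : V) (c : Fin k)
    (hc : c ∈ Fb0 u) (h : c.val < 4 * l) : lab k l hl c ∈ FL k l hl Fb0 u :=
  mem_image_of_mem _ (mem_filter.2 ⟨hc, h⟩)

/-- forbidden colours from forbidden labels -/
lemma lab_mem_FbOf [DecidableEq V] (k l : ℕ) (hl : 0 < l) (h4 : 4 * l ≤ k) (Fb0 : V → Finset (Fin k))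
    (U : Finset V) (lv : V → Fin l) (pv : V → Fin 4) (w : V) (c : Fin k) (h : c.val < 4 * l)
    (hc : c ∈ FbOf U Fb0 (fun w => mk k l h4 (lv w) (pv w)) w) :
    lab k l hl c ∈ FbOf U (FL k l hl Fb0) lv w := by
  unfold FbOf at hc ⊢
  split_ifs at hc ⊢ with hw
  · exact lab_mem_FL k l hl Fb0 w c hc h
  · rw [mem_singleton] at hc ⊢
    rw [hc, lab_mk]

end MP_db9399_co.Lin.CORE

namespace MP_db9399_co.Lin

universe u

open Finset CORE

theorem stmt_CORE (hCUT : Stmt_CUT.{u}) (hSPL : Stmt_SPL.{u}) (hLABV : Stmt_LABV.{u})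
    (hLABE : Stmt_LABE.{u}) (hFIL : Stmt_FIL.{u}) (hTYP : Stmt_TYP.{u}) (hGAL : Stmt_GAL.{u}) :
    Stmt_CORE.{u} := by
  intro V _ _ r R _ E s k U Fb0 hs hk hr hsym hirr hEr hER hbwd hFb0 hspec hUU hback hdeg hdegU
  obtain ⟨l, hl⟩ : ∃ l : ℕ, l = 2 * (k / 64 + 3 * s) + 3 := ⟨_, rfl⟩
  have hl0 : 0 < l := by omega
  have h4l : 4 * l + 24 ≤ k := by omega
  have h4l' : 4 * l ≤ k := by omega
  -- the cuts
  obtain ⟨f, hf⟩ := hCUT V E s 6 hbwd
  have hf' : ∀ w b, 64 * ((fwd E w).filter (fun e => f e.2 = b)).card ≤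
      (fwd E w).card + 128 * s := by
    intro w b
    have := hf w b
    norm_num at this
    exact this
  have hinck : ∀ w, (inc E w).card ≤ k := by
    intro w
    by_cases hw : w ∈ U
    · have := hdegU w hw; omega
    · have := hdeg w hw; omega
  have hfwdk : ∀ w, (fwd E w).card ≤ k := fun w => (fwd_le_inc E w).trans (hinck w)
  obtain ⟨N0, hN0⟩ : ∃ N0 : Finset (V × V), N0 = E.filter (fun e => f e.1 = f e.2) := ⟨_, rfl⟩
  have hN0E : N0 ⊆ E := by rw [hN0]; exact filter_subset _ _
  have hfwdN0 : ∀ w, 64 * (fwd N0 w).card ≤ (fwd E w).card + 128 * s := by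
    intro w
    refine le_trans ?_ (hf' w (f w))
    have : (fwd N0 w).card ≤ ((fwd E w).filter (fun e => f e.2 = f w)).card := by
      apply card_le_card
      intro e he
      rw [hN0] at he
      simp only [fwd, mem_filter] at he ⊢
      obtain ⟨⟨h1, h2⟩, h3⟩ := he
      exact ⟨⟨h1, h3⟩, by rw [← h2, h3]⟩
    omega
  have hbwdN0 : ∀ w, (bwd N0 w).card ≤ s := by
    intro w
    refine le_trans (card_le_card ?_) (hbwd w)
    intro e he
    simp only [bwd, mem_filter] at he ⊢
    exact ⟨hN0E he.1, he.2⟩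
  have hN0deg : ∀ w, (inc N0 w).card ≤ k / 64 + 3 * s := by
    intro w
    have h1 := inc_le N0 w
    have h2 := hfwdN0 w
    have h3 := hbwdN0 w
    have h4 := hfwdk w
    omega
  -- labels
  have hFLc : ∀ u ∈ U, (FL k l hl0 Fb0 u).card ≤ 2 := fun u hu => FL_card k l hl0 Fb0 u (hFb0 u hu)
  obtain ⟨lv, hlv⟩ := hLABV V r R U l (s + k / 32) (FL k l hl0 Fb0) hr hsym hirr hFLc hspec hUU
    hback (by omega)
  obtain ⟨le, hle1, hle2⟩ := hLABE V N0 (k / 64 + 3 * s) l (FbOf U (FL k l hl0 Fb0) lv)
    (FbOf_card_le U _ lv hFLc) hN0deg (by omega)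
  have hEne : ∀ e ∈ E, e.1 ≠ e.2 := by
    intro e he h
    have := hEr e he
    rw [h] at this
    exact lt_irrefl _ this
  obtain ⟨pv, pe, hsp⟩ := hSPL V E N0 s l U lv le hN0E hEne hbwd hle2 (by
    intro e he
    obtain ⟨h1, h2⟩ := hle1 e he
    refine ⟨fun hu h => h1 ?_, fun hu h => h2 ?_⟩
    · simp only [FbOf, if_neg hu, mem_singleton]; exact h
    · simp only [FbOf, if_neg hu, mem_singleton]; exact h)
  -- vertex colours
  obtain ⟨c, hc⟩ : ∃ c : V → Fin k, c = fun w => mk k l h4l' (lv w) (pv w) := ⟨_, rfl⟩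
  obtain ⟨Fb, hFbdef⟩ : ∃ Fb : V → Finset (Fin k), Fb = FbOf U Fb0 c := ⟨_, rfl⟩
  have hFbc : ∀ w, (Fb w).card ≤ 2 := by rw [hFbdef]; exact FbOf_card_le U Fb0 c hFb0
  have hFbns : ∀ w, w ∉ U → Fb w = {c w} := by
    intro w hw; rw [hFbdef]; simp only [FbOf, if_neg hw]
  have hclt : ∀ w, (c w).val < 4 * l := by intro w; rw [hc]; exact mk_lt _ _ _ _ _
  have hlabFb : ∀ w γ, γ ∈ Fb w → γ.val < 4 * l →
      lab k l hl0 γ ∈ FbOf U (FL k l hl0 Fb0) lv w := by
    intro w γ hγ hlt
    rw [hFbdef, hc] at hγ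
    exact lab_mem_FbOf k l hl0 h4l' Fb0 U lv pv w γ hlt hγ
  have hdisj : ∀ x y, R x y → Disjoint (Fb x) (Fb y) := by
    intro x y hxy
    rw [Finset.disjoint_left]
    intro γ hγx hγy
    by_cases hlt : γ.val < 4 * l
    · exact (Finset.disjoint_left.1 (hlv x y hxy)) (hlabFb x γ hγx hlt) (hlabFb y γ hγy hlt)
    · by_cases hx : x ∈ U
      · by_cases hy : y ∈ U
        · exact hUU x hx y hy hxy
        · rw [hFbns y hy, mem_singleton] at hγy
          rw [hγy] at hlt
          exact hlt (hclt y)
      · rw [hFbns x hx, mem_singleton] at hγx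
        rw [hγx] at hlt
        exact hlt (hclt x)
  -- colours of the edges of N0
  obtain ⟨cN, hcN⟩ : ∃ cN : V × V → Fin k, cN = fun e => mk k l h4l' (le e) (pe e) := ⟨_, rfl⟩
  have hcNlt : ∀ e, (cN e).val < 4 * l := by intro e; rw [hcN]; exact mk_lt _ _ _ _ _
  have hcNlab : ∀ e, lab k l hl0 (cN e) = le e := by intro e; rw [hcN]; exact lab_mk _ _ _ _ _ _
  have hcNFb : ∀ e ∈ N0, cN e ∉ Fb e.1 ∧ cN e ∉ Fb e.2 := by
    intro e he
    obtain ⟨h1, h2⟩ := hle1 e he
    refine ⟨fun h => h1 ?_, fun h => h2 ?_⟩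
    · rw [← hcNlab e]; exact hlabFb _ _ h (hcNlt e)
    · rw [← hcNlab e]; exact hlabFb _ _ h (hcNlt e)
  have hcNprop : ∀ e ∈ N0, ∀ g ∈ N0, e ≠ g → Share e g → cN e ≠ cN g := by
    intro e he g hg hne hsh h
    apply hle2 e he g hg hne hsh
    rw [← hcNlab e, ← hcNlab g, h]
  -- demands
  let γ : Fin (4 * l) → Fin k := Fin.castLE h4l'
  have hγv : ∀ α, (γ α).val = α.val := fun α => rfl
  have hγinj : ∀ α β, γ α = γ β → α = β := fun α β h => Fin.castLE_injective h4l' h
  let covN : Fin (4 * l) → Finset V := fun α =>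
    univ.filter (fun w => ∃ g ∈ N0, cN g = γ α ∧ (g.1 = w ∨ g.2 = w))
  let big : Finset V := univ.filter (fun w => k < (inc E w).card + (4 * l + 24))
  let Z : (Fin (4 * l) ⊕ (Fin 6 × Fin 4)) → Finset V := fun τ => Sum.elim
    (fun α => (univ.filter (fun w => γ α ∈ Fb w)) ∪ covN α)
    (fun p => ZQ Fb (LL k l p.1) (fun w => f w p.1) p.2) τ
  let A : (Fin (4 * l) ⊕ (Fin 6 × Fin 4)) → Finset V := fun τ => big \ Z τ
  let Ea : (Fin (4 * l) ⊕ (Fin 6 × Fin 4)) → Finset (V × V) := fun τ => Sum.elim
    (fun _ => E \ N0) (fun p => E.filter (fun e => f e.1 p.1 ≠ f e.2 p.1)) τ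
  have hZl : ∀ α, Z (Sum.inl α) = (univ.filter (fun w => γ α ∈ Fb w)) ∪ covN α := fun α => rfl
  have hZr : ∀ p, Z (Sum.inr p) = ZQ Fb (LL k l p.1) (fun w => f w p.1) p.2 := fun p => rfl
  have hEal : ∀ α, Ea (Sum.inl α) = E \ N0 := fun α => rfl
  have hEar : ∀ p, Ea (Sum.inr p) = E.filter (fun e => f e.1 p.1 ≠ f e.2 p.1) := fun p => rfl
  have hEaE : ∀ τ, Ea τ ⊆ E := by
    intro τ
    cases τ with
    | inl α => rw [hEal]; exact sdiff_subset
    | inr p => rw [hEar]; exact filter_subset _ _
  have hEaN0 : ∀ τ, ∀ e ∈ Ea τ, e ∉ N0 := by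
    intro τ e he
    cases τ with
    | inl α => rw [hEal] at he; exact (mem_sdiff.1 he).2
    | inr p =>
      rw [hEar] at he
      have h1 := (mem_filter.1 he).2
      intro h2
      rw [hN0] at h2
      exact h1 (congrFun (mem_filter.1 h2).2 p.1)
  have hcardι : Fintype.card (Fin (4 * l) ⊕ (Fin 6 × Fin 4)) = 4 * l + 24 := by
    simp [Fintype.card_sum, Fintype.card_prod]
  have hspw := card_fwd_special R E U hER hspec
  have hbigfwd : ∀ w ∈ big, k + 1 ≤ (fwd E w).card + s + (4 * l + 24) := by
    intro w hw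
    have h1 := (mem_filter.1 hw).2
    have h2 := inc_le E w
    have h3 := hbwd w
    omega
  obtain ⟨M, hM1, hM2, hM3, hM4, hM5⟩ := hFIL V r E s hs hEr hbwd
    (Fin (4 * l) ⊕ (Fin 6 × Fin 4)) A Z Ea hEaE (fun τ => sdiff_disjoint) (by
      intro τ w hw
      have hwbig : w ∈ big := (mem_sdiff.1 hw).1
      have hd := hbigfwd w hwbig
      rw [hcardι]
      cases τ with
      | inl α =>
        obtain ⟨B1, hB1⟩ : ∃ B1 : Finset (V × V), B1 = (fwd E w).filter (fun e => (e.2 ∉ U ∧
          lv e.2 = lab k l hl0 (γ α) ∧ pv e.2 = ⟨α.val % 4, Nat.mod_lt _ (by norm_num)⟩) ∨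
          ∃ g ∈ N0, le g = lab k l hl0 (γ α) ∧ pe g = ⟨α.val % 4, Nat.mod_lt _ (by norm_num)⟩ ∧
            (g.1 = e.2 ∨ g.2 = e.2)) := ⟨_, rfl⟩
        have hb := hsp w (lab k l hl0 (γ α)) ⟨α.val % 4, Nat.mod_lt _ (by norm_num)⟩
        rw [← hB1] at hb
        have hlabval : (lab k l hl0 (γ α)).val = α.val / 4 := by
          have h1 := α.2
          have h2 : α.val / 4 < l := by omega
          simp only [lab, hγv, Nat.mod_eq_of_lt h2]
        have hmkα : ∀ (a : Fin l) (p : Fin 4), mk k l h4l' a p = γ α →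
            a = lab k l hl0 (γ α) ∧ p = ⟨α.val % 4, Nat.mod_lt _ (by norm_num)⟩ := by
          intro a p h
          have h1 := congrArg Fin.val h
          rw [mk_val, hγv] at h1
          constructor
          · apply Fin.ext; rw [hlabval]; omega
          · apply Fin.ext; show p.val = α.val % 4; omega
        have hcover : fwd E w ⊆ ((fwd (Ea (Sum.inl α)) w).filter (fun e => e.2 ∉ Z (Sum.inl α))) ∪
            (fwd N0 w ∪ ((fwd E w).filter (fun e => e.2 ∈ U) ∪ B1)) := by
          intro e he
          have he' := mem_filter.1 he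
          by_cases hN : e ∈ N0
          · exact mem_union_right _ (mem_union_left _ (mem_filter.2 ⟨hN, he'.2⟩))
          by_cases hU : e.2 ∈ U
          · exact mem_union_right _ (mem_union_right _ (mem_union_left _ (mem_filter.2 ⟨he, hU⟩)))
          by_cases hZ : e.2 ∈ Z (Sum.inl α)
          · refine mem_union_right _ (mem_union_right _ (mem_union_right _ ?_))
            rw [hB1, mem_filter]
            refine ⟨he, ?_⟩
            rw [hZl, mem_union] at hZ
            rcases hZ with hZ | hZ
            · left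
              have h1 := (mem_filter.1 hZ).2
              rw [hFbns e.2 hU, mem_singleton, hc] at h1
              have h2 := hmkα _ _ h1.symm
              exact ⟨hU, h2.1, h2.2⟩
            · right
              obtain ⟨g, hg, hg1, hg2⟩ := (mem_filter.1 hZ).2
              rw [hcN] at hg1
              have h2 := hmkα _ _ hg1
              exact ⟨g, hg, h2.1, h2.2, hg2⟩
          · apply mem_union_left
            rw [mem_filter]
            refine ⟨?_, hZ⟩
            rw [fwd, mem_filter, hEal, mem_sdiff]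
            exact ⟨⟨he'.1, hN⟩, he'.2⟩
        have h1 := (card_le_card hcover).trans (card_union_le _ _)
        have h2 := card_union_le (fwd N0 w) ((fwd E w).filter (fun e => e.2 ∈ U) ∪ B1)
        have h3 := card_union_le ((fwd E w).filter (fun e => e.2 ∈ U)) B1
        have h4 := hspw w
        have h5 := hfwdN0 w
        have h6 := hfwdk w
        omega
      | inr p =>
        have hsame := card_same_side E f s w p.1 (hf' w)
        have hcover : fwd E w ⊆ ((fwd (Ea (Sum.inr p)) w).filter (fun e => e.2 ∉ Z (Sum.inr p))) ∪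
            (((fwd E w).filter (fun e => f e.2 p.1 = f w p.1)) ∪
              ((fwd E w).filter (fun e => e.2 ∈ U))) := by
          intro e he
          have he' := mem_filter.1 he
          by_cases hN : f e.2 p.1 = f w p.1
          · exact mem_union_right _ (mem_union_left _ (mem_filter.2 ⟨he, hN⟩))
          by_cases hU : e.2 ∈ U
          · exact mem_union_right _ (mem_union_right _ (mem_filter.2 ⟨he, hU⟩))
          apply mem_union_left
          rw [mem_filter]
          refine ⟨?_, ?_⟩
          · rw [fwd, mem_filter, hEar, mem_filter]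
            refine ⟨⟨he'.1, ?_⟩, he'.2⟩
            rw [he'.2]; exact fun h => hN h.symm
          · rw [hZr, ZQ, mem_filter]
            rintro ⟨-, -, h2⟩
            rw [hFbns e.2 hU] at h2
            have h3 : ({c e.2} : Finset (Fin k)) ∩ LL k l p.1 = ∅ := by
              rw [Finset.eq_empty_iff_forall_notMem]
              intro x hx
              rw [mem_inter, mem_singleton] at hx
              have h4 := (mem_filter.1 hx.2).2.1
              rw [hx.1] at h4
              have := hclt e.2
              omega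
            rw [h3] at h2
            simp at h2
        have h1 := (card_le_card hcover).trans (card_union_le _ _)
        have h2 := card_union_le ((fwd E w).filter (fun e => f e.2 p.1 = f w p.1))
          ((fwd E w).filter (fun e => e.2 ∈ U))
        have h4 := hspw w
        have h6 := hfwdk w
        omega)
  -- the rest
  let MM : Finset (V × V) := univ.biUnion M
  obtain ⟨E3, hE3⟩ : ∃ E3 : Finset (V × V), E3 = (E \ N0) \ MM := ⟨_, rfl⟩
  have hE3E : E3 ⊆ E := by rw [hE3]; exact sdiff_subset.trans sdiff_subset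
  have hLge := fun i => LL_card_ge k l i
  have hLsum := sum_LL_card k l h4l'
  have hinc3 : ∀ w, (inc E3 w).card + (4 * l + 24) ≤ k := by
    intro w
    by_cases hw : w ∈ big
    · -- covered demands
      have hdecT : DecidablePred (fun τ : Fin (4 * l) ⊕ (Fin 6 × Fin 4) =>
        Sum.elim (fun α => γ α ∉ Fb w) (fun p => w ∉ Z (Sum.inr p)) τ) := Classical.decPred _
      obtain ⟨T, hT⟩ : ∃ T : Finset (Fin (4 * l) ⊕ (Fin 6 × Fin 4)), T = univ.filter (fun τ =>
        Sum.elim (fun α => γ α ∉ Fb w) (fun p => w ∉ Z (Sum.inr p)) τ) := ⟨_, rfl⟩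
      have hTl : ∀ α, Sum.inl α ∈ T ↔ γ α ∉ Fb w := by
        intro α; rw [hT]; simp
      have hTr : ∀ p, Sum.inr p ∈ T ↔ w ∉ Z (Sum.inr p) := by
        intro p; rw [hT]; simp
      have hch : ∀ τ ∈ T, ∃ e : V × V, (e.1 = w ∨ e.2 = w) ∧
          (e ∈ M τ ∨ ∃ α, τ = Sum.inl α ∧ e ∈ N0 ∧ cN e = γ α) := by
        intro τ hτ
        cases τ with
        | inl α =>
          rw [hTl] at hτ
          by_cases hcov : w ∈ covN α
          · obtain ⟨g, hg, hg1, hg2⟩ := (mem_filter.1 hcov).2
            exact ⟨g, hg2, Or.inr ⟨α, rfl, hg, hg1⟩⟩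
          · have : w ∈ A (Sum.inl α) := by
              refine mem_sdiff.2 ⟨hw, ?_⟩
              rw [hZl, mem_union, not_or]
              exact ⟨fun h => hτ (mem_filter.1 h).2, hcov⟩
            obtain ⟨e, he, he1⟩ := hM4 _ w this
            exact ⟨e, he1, Or.inl he⟩
        | inr p =>
          rw [hTr] at hτ
          obtain ⟨e, he, he1⟩ := hM4 _ w (mem_sdiff.2 ⟨hw, hτ⟩)
          exact ⟨e, he1, Or.inl he⟩
      have hneVV : Nonempty (V × V) := ⟨(w, w)⟩
      choose! g hg1 hg2 using hch
      have hginj : Set.InjOn g (T : Set (Fin (4 * l) ⊕ (Fin 6 × Fin 4))) := by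
        intro τ hτ τ' hτ' hgg
        have hτ := mem_coe.1 hτ
        have hτ' := mem_coe.1 hτ'
        rcases hg2 τ hτ with h | ⟨α, rfl, h, h'⟩ <;> rcases hg2 τ' hτ' with h2 | ⟨β, rfl, h2, h2'⟩
        · by_contra hne
          exact (Finset.disjoint_left.1 (hM3 τ τ' hne)) h (by rw [hgg]; exact h2)
        · exfalso
          exact hEaN0 τ _ (hM1 τ h) (by rw [hgg]; exact h2)
        · exfalso
          exact hEaN0 τ' _ (hM1 τ' h2) (by rw [← hgg]; exact h)
        · congr 1
          apply hγinj
          rw [← h', ← h2', hgg]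
      have hTcard : T.card + (inc E3 w).card ≤ (inc E w).card := by
        rw [← card_image_of_injOn hginj, ← card_union_of_disjoint]
        · apply card_le_card
          intro e he
          rcases mem_union.1 he with he | he
          · obtain ⟨τ, hτ, rfl⟩ := mem_image.1 he
            refine mem_filter.2 ⟨?_, hg1 τ hτ⟩
            rcases hg2 τ hτ with h | ⟨α, -, h, -⟩
            · exact hEaE τ (hM1 τ h)
            · exact hN0E h
          · have := mem_filter.1 he
            exact mem_filter.2 ⟨hE3E this.1, this.2⟩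
        · rw [Finset.disjoint_left]
          intro e he he3
          obtain ⟨τ, hτ, rfl⟩ := mem_image.1 he
          have h3 := (mem_filter.1 he3).1
          rw [hE3, mem_sdiff, mem_sdiff] at h3
          rcases hg2 τ hτ with h | ⟨α, -, h, -⟩
          · exact h3.2 (mem_biUnion.2 ⟨τ, mem_univ _, h⟩)
          · exact h3.1.2 h
      -- number of demands which are not covered
      have hTc : (4 * l + 24) ≤ T.card + (Fb w).card := by
        have h1 : (Tᶜ).card ≤ (Fb w).card := by
          have hsub : Tᶜ ⊆ ((univ.filter (fun α : Fin (4 * l) => γ α ∈ Fb w)).map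
              Function.Embedding.inl) ∪ ((univ.filter (fun p : Fin 6 × Fin 4 =>
                w ∈ Z (Sum.inr p))).map Function.Embedding.inr) := by
            intro τ hτ
            rw [mem_compl] at hτ
            cases τ with
            | inl α =>
              rw [hTl, not_not] at hτ
              apply mem_union_left
              rw [mem_map]
              exact ⟨α, mem_filter.2 ⟨mem_univ _, hτ⟩, rfl⟩
            | inr p =>
              rw [hTr, not_not] at hτ
              apply mem_union_right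
              rw [mem_map]
              exact ⟨p, mem_filter.2 ⟨mem_univ _, hτ⟩, rfl⟩
          have h2 := (card_le_card hsub).trans (card_union_le _ _)
          rw [card_map, card_map] at h2
          have h3 : (univ.filter (fun α : Fin (4 * l) => γ α ∈ Fb w)).card ≤
              ((Fb w).filter (fun c => c.val < 4 * l)).card := by
            rw [← card_image_of_injOn (f := γ) (s := univ.filter (fun α => γ α ∈ Fb w))
              (fun a _ b _ h => hγinj a b h)]
            apply card_le_card
            intro x hx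
            obtain ⟨α, hα, rfl⟩ := mem_image.1 hx
            exact mem_filter.2 ⟨(mem_filter.1 hα).2, by rw [hγv]; exact α.2⟩
          have h4 : (univ.filter (fun p : Fin 6 × Fin 4 => w ∈ Z (Sum.inr p))).card ≤
              ∑ i, (Fb w ∩ LL k l i).card := by
            rw [card_eq_sum_card_fiberwise (f := fun p : Fin 6 × Fin 4 => p.1) (t := univ)
              (fun _ _ => mem_coe.2 (mem_univ _))]
            apply sum_le_sum
            intro i _
            have hb2 : (Fb w ∩ LL k l i).card ≤ 2 := (card_le_card inter_subset_left).trans (hFbc w)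
            refine le_trans ?_ (card_avoid _ hb2 (f w i))
            have hinj : Set.InjOn Prod.snd ((filter (fun p : Fin 6 × Fin 4 => p.1 = i)
                (univ.filter (fun p : Fin 6 × Fin 4 => w ∈ Z (Sum.inr p))) : Finset _) :
                  Set (Fin 6 × Fin 4)) := by
              intro p hp q hq hpq
              have hp := (mem_filter.1 (mem_coe.1 hp)).2
              have hq := (mem_filter.1 (mem_coe.1 hq)).2
              exact Prod.ext (hp.trans hq.symm) hpq
            rw [← card_image_of_injOn hinj]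
            apply card_le_card
            intro j hj
            obtain ⟨p, hp, rfl⟩ := mem_image.1 hj
            rw [mem_filter, mem_filter] at hp
            have h5 := hp.1.2
            rw [hZr, ZQ, mem_filter] at h5
            rw [← hp.2]
            exact mem_filter.2 ⟨mem_univ _, h5.2⟩
          have h5 := sum_LL k l (Fb w)
          omega
        have h6 := card_compl T
        rw [hcardι] at h6
        have h7 := card_le_univ T
        rw [hcardι] at h7
        omega
      by_cases hwU : w ∈ U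
      · have h8 := hdegU w hwU
        have h9 : (Fb w).card = (Fb0 w).card := by rw [hFbdef]; simp only [FbOf, if_pos hwU]
        omega
      · have h8 := hdeg w hwU
        have h9 : (Fb w).card = 1 := by rw [hFbns w hwU]; simp
        omega
    · have h1 : ¬ k < (inc E w).card + (4 * l + 24) := fun h => hw (mem_filter.2 ⟨mem_univ _, h⟩)
      have h2 : (inc E3 w).card ≤ (inc E w).card := by
        apply card_le_card
        intro e he
        have := mem_filter.1 he
        exact mem_filter.2 ⟨hE3E this.1, this.2⟩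
      omega
  have hE3cross : ∀ e ∈ E3, f e.1 ≠ f e.2 := by
    intro e he h
    rw [hE3, mem_sdiff, mem_sdiff] at he
    exact he.1.2 (by rw [hN0]; exact mem_filter.2 ⟨he.1.1, h⟩)
  have hsumcap : ∑ i : Fin 6, ((LL k l i).card - 4) = k - 4 * l - 24 := by
    have h1 : ∑ i : Fin 6, ((LL k l i).card - 4) + ∑ i : Fin 6, 4 = ∑ i : Fin 6, (LL k l i).card := by
      rw [← sum_add_distrib]
      apply sum_congr rfl
      intro i _
      have := hLge i
      omega
    rw [hLsum] at h1
    simp at h1
    omega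
  obtain ⟨ty, hty1, hty2⟩ := hTYP V r E3 6 (k / 64 + 2 * s) s ((k - 4 * l) / 6 - 4) f
    (fun i => (LL k l i).card - 4) (by norm_num) hr (fun e he => hEr e (hE3E he)) hE3cross (by
      intro w b
      have h1 := hf' w b
      have h2 := hfwdk w
      have h3 : ((fwd E3 w).filter (fun e => f e.2 = b)).card ≤
          ((fwd E w).filter (fun e => f e.2 = b)).card := by
        apply card_le_card
        intro e he
        simp only [fwd, mem_filter] at he ⊢
        exact ⟨⟨hE3E he.1.1, he.1.2⟩, he.2⟩
      omega) (by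
      intro x
      refine le_trans (card_le_card ?_) (hbwd x)
      intro e he
      simp only [bwd, mem_filter] at he ⊢
      exact ⟨hE3E he.1, he.2⟩) (by
      intro w
      rw [hsumcap]
      have := hinc3 w
      omega) (by
      intro i
      have := hLge i
      show (k - 4 * l) / 6 - 4 ≤ (LL k l i).card - 4
      omega) (by
      intro j hj1 hj2
      interval_cases j <;> omega)
  have hgal := fun i : Fin 6 => hGAL V k (LL k l i).card (fun w => f w i)
    (E3.filter (fun e => ty e = i)) (fun j => M (Sum.inr (i, j))) (LL k l i) Fb (by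
      have := hLge i
      omega) rfl (fun w => (card_le_card inter_subset_left).trans (hFbc w)) (by
      intro e he
      have he' := mem_filter.1 he
      have := hty1 e he'.1
      rw [he'.2] at this
      exact this) (by
      intro j e he
      have := hM1 _ he
      rw [hEar] at this
      exact (mem_filter.1 this).2) (by
      intro w
      have h1 := hty2 w i
      have h2 : (inc (E3.filter (fun e => ty e = i)) w).card ≤
          ((inc E3 w).filter (fun e => ty e = i)).card := by
        apply card_le_card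
        intro e he
        simp only [inc, mem_filter] at he ⊢
        exact ⟨⟨he.1.1, he.2⟩, he.1.2⟩
      have h3 := hLge i
      omega) (fun j => hM2 _) (by
      intro j
      rw [Finset.disjoint_left]
      intro e he he'
      have h1 := (mem_filter.1 he).1
      rw [hE3, mem_sdiff] at h1
      exact h1.2 (mem_biUnion.2 ⟨_, mem_univ _, he'⟩)) (by
      intro j j' hjj
      apply hM3
      intro h
      apply hjj
      have := Sum.inr.inj h
      exact (Prod.mk.inj this).2) (by
      intro j e he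
      have := hM5 _ e he
      rw [hZr] at this
      exact this)
  choose colG hcolG1 hcolG2 using hgal
  -- the final colouring
  have hparts : ∀ e ∈ E, ∃ γe : Fin k,
      ((∃ α, γe = γ α ∧ ((e ∈ N0 ∧ cN e = γ α) ∨ e ∈ M (Sum.inl α))) ∨
      (∃ i, ((e ∈ E3.filter (fun e => ty e = i)) ∨ ∃ j, e ∈ M (Sum.inr (i, j))) ∧
        γe = colG i e)) := by
    intro e he
    by_cases h0 : e ∈ N0
    · refine ⟨cN e, Or.inl ⟨⟨(cN e).val, hcNlt e⟩, Fin.ext rfl, Or.inl ⟨h0, Fin.ext rfl⟩⟩⟩
    by_cases h1 : e ∈ MM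
    · obtain ⟨τ, -, hτ⟩ := mem_biUnion.1 h1
      cases τ with
      | inl α => exact ⟨γ α, Or.inl ⟨α, rfl, Or.inr hτ⟩⟩
      | inr p => exact ⟨colG p.1 e, Or.inr ⟨p.1, Or.inr ⟨p.2, hτ⟩, rfl⟩⟩
    · refine ⟨colG (ty e) e, Or.inr ⟨ty e, Or.inl (mem_filter.2 ⟨?_, rfl⟩), rfl⟩⟩
      rw [hE3, mem_sdiff, mem_sdiff]
      exact ⟨⟨he, h0⟩, h1⟩
  have hne : Nonempty (Fin k) := ⟨⟨0, by omega⟩⟩
  choose! col hcol using hparts
  refine ⟨c, col, ?_, ?_, ?_⟩
  · rw [← hFbdef]; exact hdisj
  · intro e he
    rw [← hFbdef]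
    rcases hcol e he with ⟨α, hα, ⟨h1, h2⟩ | h1⟩ | ⟨i, hi, hci⟩
    · rw [hα, ← h2]; exact hcNFb e h1
    · rw [hα]
      have h3 := hM5 _ e h1
      rw [hZl, mem_union, not_or, mem_union, not_or] at h3
      exact ⟨fun h => h3.1.1 (mem_filter.2 ⟨mem_univ _, h⟩),
        fun h => h3.2.1 (mem_filter.2 ⟨mem_univ _, h⟩)⟩
    · rw [hci]
      exact (hcolG1 i e hi).2
  · intro e he g hg hne hsh heq
    -- a colour of P at a matching
    have hP : ∀ α, ∀ e g : V × V, ((e ∈ N0 ∧ cN e = γ α) ∨ e ∈ M (Sum.inl α)) →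
        ((g ∈ N0 ∧ cN g = γ α) ∨ g ∈ M (Sum.inl α)) → e ≠ g → Share e g → False := by
      have hmix : ∀ α, ∀ e g : V × V, (e ∈ N0 ∧ cN e = γ α) → g ∈ M (Sum.inl α) →
          (Share e g ∨ Share g e) → False := by
        intro α e g h1 h2 h3
        have h4 := hM5 _ g h2
        rw [hZl, mem_union, not_or, mem_union, not_or] at h4
        have h5 : ∀ w, (e.1 = w ∨ e.2 = w) → w ∈ covN α := fun w hw =>
          mem_filter.2 ⟨mem_univ _, e, h1.1, h1.2, hw⟩
        have h6 : (e.1 = g.1 ∨ e.2 = g.1) ∨ (e.1 = g.2 ∨ e.2 = g.2) := by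
          rcases h3 with (h | h | h | h) | (h | h | h | h)
          · exact Or.inl (Or.inl h)
          · exact Or.inr (Or.inl h)
          · exact Or.inl (Or.inr h)
          · exact Or.inr (Or.inr h)
          · exact Or.inl (Or.inl h.symm)
          · exact Or.inl (Or.inr h.symm)
          · exact Or.inr (Or.inl h.symm)
          · exact Or.inr (Or.inr h.symm)
        rcases h6 with h | h
        · exact h4.1.2 (h5 _ h)
        · exact h4.2.2 (h5 _ h)
      intro α e g h1 h2 hne hsh
      rcases h1 with h1 | h1 <;> rcases h2 with h2 | h2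
      · exact hcNprop e h1.1 g h2.1 hne hsh (h1.2.trans h2.2.symm)
      · exact hmix α e g h1 h2 (Or.inl hsh)
      · exact hmix α g e h2 h1 (Or.inr hsh)
      · exact hne (hM2 _ e h1 g h2 hsh)
    rcases hcol e he with ⟨α, hα, h1⟩ | ⟨i, hi, hci⟩ <;>
      rcases hcol g hg with ⟨β, hβ, h2⟩ | ⟨j, hj, hcj⟩
    · have : α = β := hγinj α β (by rw [← hα, ← hβ]; exact heq)
      subst this
      exact hP α e g h1 h2 hne hsh
    · have h3 := (hcolG1 j g hj).1
      rw [← hcj, ← heq, hα] at h3
      have h4 := (mem_filter.1 h3).2.1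
      rw [hγv] at h4
      have := α.2
      omega
    · have h3 := (hcolG1 i e hi).1
      rw [← hci, heq, hβ] at h3
      have h4 := (mem_filter.1 h3).2.1
      rw [hγv] at h4
      have := β.2
      omega
    · have h3 := (hcolG1 i e hi).1
      have h4 := (hcolG1 j g hj).1
      rw [← hci] at h3
      rw [← hcj, ← heq] at h4
      have h5 := (mem_filter.1 h3).2.2
      have h6 := (mem_filter.1 h4).2.2
      have h7 : i = j := Fin.ext (by omega)
      subst h7
      exact hcolG2 i e g hi hj hne hsh (by rw [← hci, ← hcj]; exact heq)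

end MP_db9399_co.Lin
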