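import Pool.Agent.Work.MP_db9399_lin.Interface

/-!
MP_db9399_co, linear theorem, block CORE (helper75): palettes and counting lemmas.
-/

set_option autoImplicit false

namespace MP_db9399_co.Lin.CORE

universe u

open Finset

/-- the palette of the cut `i` -/
def LL (k l : ℕ) (i : Fin 6) : Finset (Fin k) :=
  univ.filter (fun c => 4 * l ≤ c.val ∧ (c.val - 4 * l) % 6 = i.val)

lemma LL_card_ge (k l : ℕ) (i : Fin 6) : (k - 4 * l) / 6 ≤ (LL k l i).card := by
  have h : ∀ n ∈ range ((k - 4 * l) / 6), 4 * l + 6 * n + i.val < k := by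
    intro n hn
    have := mem_range.1 hn
    have hi := i.2
    omega
  calc (k - 4 * l) / 6 = (range ((k - 4 * l) / 6)).attach.card := by simp
    _ = ((range ((k - 4 * l) / 6)).attach.image
          (fun n => (⟨4 * l + 6 * n.1 + i.val, h n.1 n.2⟩ : Fin k))).card := by
        rw [card_image_of_injective]
        intro a b hab
        have := Fin.mk.inj_iff.1 hab
        apply Subtype.ext
        omega
    _ ≤ (LL k l i).card := by
        apply card_le_card
        intro c hc
        obtain ⟨n, -, rfl⟩ := mem_image.1 hc
        have hi := i.2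
        simp only [LL, mem_filter, mem_univ, true_and]
        omega

lemma card_P (k l : ℕ) (h : 4 * l ≤ k) :
    ((univ : Finset (Fin k)).filter (fun c => c.val < 4 * l)).card = 4 * l := by
  have : ((univ : Finset (Fin k)).filter (fun c => c.val < 4 * l)) =
      (univ : Finset (Fin (4 * l))).image (Fin.castLE h) := by
    ext c
    simp only [mem_filter, mem_univ, true_and, mem_image]
    constructor
    · intro hc
      exact ⟨⟨c.val, hc⟩, Fin.ext rfl⟩
    · rintro ⟨a, rfl⟩
      exact a.2
  rw [this, card_image_of_injective _ (Fin.castLE_injective h), card_univ, Fintype.card_fin]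

lemma sum_LL (k l : ℕ) (S : Finset (Fin k)) :
    (S.filter (fun c => c.val < 4 * l)).card + ∑ i, (S ∩ LL k l i).card = S.card := by
  have h1 : ∑ i, (S ∩ LL k l i).card = (S.filter (fun c => ¬ c.val < 4 * l)).card := by
    rw [card_eq_sum_card_fiberwise (f := fun c : Fin k => (⟨(c.val - 4 * l) % 6,
      Nat.mod_lt _ (by norm_num)⟩ : Fin 6)) (t := univ) (fun _ _ => mem_coe.2 (mem_univ _))]
    apply sum_congr rfl
    intro i _
    congr 1
    ext c
    simp only [LL, mem_inter, mem_filter, mem_univ, true_and, Fin.ext_iff, not_lt]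
    tauto
  rw [h1]
  exact card_filter_add_card_filter_not _

lemma sum_LL_card (k l : ℕ) (h : 4 * l ≤ k) : ∑ i, (LL k l i).card = k - 4 * l := by
  have := sum_LL k l univ
  rw [card_P k l h] at this
  simp only [univ_inter, card_univ, Fintype.card_fin] at this
  omega

lemma card_codes (i : Fin 6) (v : Bool) :
    ((univ : Finset (Fin 6 → Bool)).filter (fun b => b i = v)).card = 32 := by
  revert i v
  decide

variable {V : Type u} [DecidableEq V]

lemma inc_le (S : Finset (V × V)) (w : V) : (inc S w).card ≤ (fwd S w).card + (bwd S w).card := by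
  have : inc S w ⊆ fwd S w ∪ bwd S w := by
    intro e he
    simp only [inc, fwd, bwd, mem_filter, mem_union] at he ⊢
    tauto
  exact (card_le_card this).trans (card_union_le _ _)

lemma fwd_le_inc (S : Finset (V × V)) (w : V) : (fwd S w).card ≤ (inc S w).card := by
  apply card_le_card
  intro e he
  simp only [inc, fwd, mem_filter] at he ⊢
  tauto

/-- special forward neighbours -/
lemma card_fwd_special [Fintype V] (R : V → V → Prop) [DecidableRel R] (E : Finset (V × V))
    (U : Finset V) (hER : ∀ e ∈ E, R e.1 e.2)
    (hsp : ∀ x, (univ.filter (fun u => u ∈ U ∧ R x u)).card ≤ 2) (w : V) :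
    ((fwd E w).filter (fun e => e.2 ∈ U)).card ≤ 2 := by
  refine le_trans ?_ (hsp w)
  have hinj : Set.InjOn Prod.snd (((fwd E w).filter (fun e => e.2 ∈ U) : Finset (V × V)) :
      Set (V × V)) := by
    intro e he f hf hef
    simp only [fwd, coe_filter, mem_filter, Set.mem_setOf_eq] at he hf
    exact Prod.ext (he.1.2.trans hf.1.2.symm) hef
  rw [← card_image_of_injOn hinj]
  apply card_le_card
  intro x hx
  obtain ⟨e, he, rfl⟩ := mem_image.1 hx
  simp only [fwd, mem_filter, mem_univ, true_and] at he ⊢
  have := hER e he.1.1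
  rw [he.1.2] at this
  exact ⟨he.2, this⟩

/-- cells of a cut: the forward neighbours on the same side -/
lemma card_same_side (E : Finset (V × V)) (f : V → Fin 6 → Bool) (s : ℕ) (w : V) (i : Fin 6)
    (hf : ∀ b, 64 * ((fwd E w).filter (fun e => f e.2 = b)).card ≤ (fwd E w).card + 128 * s) :
    2 * ((fwd E w).filter (fun e => f e.2 i = f w i)).card ≤ (fwd E w).card + 128 * s := by
  have h1 : ((fwd E w).filter (fun e => f e.2 i = f w i)).card =
      ∑ b ∈ univ.filter (fun b : Fin 6 → Bool => b i = f w i),
        ((fwd E w).filter (fun e => f e.2 = b)).card := by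
    rw [card_eq_sum_card_fiberwise (f := fun e : V × V => f e.2)
      (t := univ.filter (fun b : Fin 6 → Bool => b i = f w i))]
    · apply sum_congr rfl
      intro b hb
      congr 1
      ext e
      simp only [mem_filter, mem_univ, true_and] at hb ⊢
      constructor
      · rintro ⟨⟨h1, h2⟩, h3⟩
        exact ⟨h1, h3⟩
      · rintro ⟨h1, h3⟩
        exact ⟨⟨h1, by rw [h3, hb]⟩, h3⟩
    · intro e he
      simp only [coe_filter, Set.mem_setOf_eq, mem_univ, true_and] at he ⊢
      exact he.2
  have h2 : 64 * ((fwd E w).filter (fun e => f e.2 i = f w i)).card ≤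
      32 * ((fwd E w).card + 128 * s) := by
    rw [h1, mul_sum]
    calc ∑ b ∈ univ.filter (fun b : Fin 6 → Bool => b i = f w i),
          64 * ((fwd E w).filter (fun e => f e.2 = b)).card
        ≤ ∑ b ∈ univ.filter (fun b : Fin 6 → Bool => b i = f w i),
          ((fwd E w).card + 128 * s) := sum_le_sum (fun b _ => hf b)
      _ = 32 * ((fwd E w).card + 128 * s) := by
          rw [sum_const, card_codes, smul_eq_mul]
  omega

/-- number of reference matchings of the cut `i` avoided by `w` -/
lemma card_avoid (b : ℕ) (hb : b ≤ 2) (v : Bool) :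
    ((univ : Finset (Fin 4)).filter (fun j => v = decide (2 ≤ j.val) ∧ j.val % 2 + 1 ≤ b)).card
      ≤ b := by
  interval_cases b <;> revert v <;> decide

end MP_db9399_co.Lin.CORE
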